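import Pool.Agent.R167.VN.Face

/-! MP_9fb481_co: a saturated packing of unit balls in three-space one of whose Voronoi cells has at
least 49 faces. The known upper bound for the number of faces is 49, so the maximum is 49. -/

namespace Pool.Agent.Results.MP_9fb481_co.FortyNineFaces

/-- Euclidean three-space -/
abbrev E3 := EuclideanSpace ℝ (Fin 3)

/-- `P` is the set of centres of a packing of unit balls: distinct centres have distance at least
two. -/
def IsPacking (P : Set E3) : Prop := ∀ x ∈ P, ∀ y ∈ P, x ≠ y → 2 ≤ dist x y

/-- The packing is saturated: every point has distance less than two from some centre, so that no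
unit ball can be added. -/
def IsSaturated (P : Set E3) : Prop := ∀ x : E3, ∃ c ∈ P, dist x c < 2

/-- The Voronoi cell of the centre `p`. -/
def cell (P : Set E3) (p : E3) : Set E3 := {x | ∀ q ∈ P, dist x p ≤ dist x q}

/-- The neighbours of the centre `p`: the centres `q ≠ p` for which the (convex) set
`cell P p ∩ cell P q` has dimension two, so that it is a face of the cell of `p`. -/
def neighbours (P : Set E3) (p : E3) : Set E3 :=
  {q | q ∈ P ∧ q ≠ p ∧ Module.finrank ℝ (vectorSpan ℝ (cell P p ∩ cell P q)) = 2}

theorem result : ∃ P : Set E3, IsPacking P ∧ IsSaturated P ∧ ∃ p ∈ P,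
    49 ≤ (neighbours P p).encard :=
  Pool.Agent.R167.VN.main

end Pool.Agent.Results.MP_9fb481_co.FortyNineFaces
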